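import Pool.Agent.Helper78.Treeable.Stmt
import Pool.Agent.Helper78.Treeable.Main

set_option autoImplicit false

open MeasureTheory Pool.Agent.Helper78.Treeable

universe u

namespace Pool.Agent.Results.MP_5a95d1_lc.MeasureTreeability

/-- Q1: let `E ⊆ F` be countable Borel equivalence relations on a standard Borel space such that
every `F`-class is the union of finitely many `E`-classes, and let `μ` be any Borel probability
measure.  If `E` is `μ`-treeable then `F` is `μ`-treeable. -/
theorem result {X : Type u} [MeasurableSpace X] [StandardBorelSpace X]
    {E F : X → X → Prop} (hE : IsCBER E) (hF : IsCBER F) (hEF : FiniteIndex E F)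
    (μ : Measure X) [IsProbabilityMeasure μ] (h : IsMuTreeable μ E) : IsMuTreeable μ F :=
  muTreeable_of_finiteIndex hE hF hEF μ h

end Pool.Agent.Results.MP_5a95d1_lc.MeasureTreeability
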